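import Pool.Agent.ASO.Stmts3
import Pool.Agent.AT3.Asm

/-!
# Squad ASO, row SYE: existence of the local data
-/

open scoped BigOperators

noncomputable section

namespace Pool.Agent.PP.SO.H1

open Pool.Agent.Helper51_AWC Pool.Agent.Helper79_WRA Pool.Agent.PP Pool.Agent.PP.KF
open Pool.Agent.PP.K9 Pool.Agent.PP.K9.H97 Pool.Agent.PP.H75 Pool.Agent.PP.T3

attribute [local instance] Ideal.Quotient.field

section rat

variable {M : Ideal (integralClosure ℤ ℂ)} [M.IsMaximal]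

/-- a rational number in the local ring has a denominator prime to `ℓ` -/
theorem rat_RM {ℓ : ℕ} [hℓ : Fact ℓ.Prime] (hM : (ℓ : integralClosure ℤ ℂ) ∈ M) {q : ℚ}
    (h : (q : ℂ) ∈ RM M) : q ∈ SOR.Rl ℓ := by
  intro hd
  have e1 : (q.num : ℂ) = (q : ℂ) * ((q.den : ℤ) : ℂ) := by
    have h1 : (q : ℚ) * q.den = q.num := Rat.mul_den_eq_num q
    have h2 := congrArg (fun r : ℚ => (r : ℂ)) h1
    push_cast at h2 ⊢
    exact h2.symm
  have e2 : rr M ((q.den : ℤ) : ℂ) = 0 := by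
    rw [dvd_of_rr hℓ.out hM]
    exact_mod_cast hd
  have e3 : rr M (q.num : ℂ) = 0 := by
    rw [e1, rr_mul h (rr_int _).1, e2, mul_zero]
  rw [dvd_of_rr hℓ.out hM] at e3
  have h3 : ℓ ∣ q.num.natAbs := Int.natCast_dvd.1 e3
  have h4 := Nat.Coprime.eq_one_of_dvd
    (Nat.Coprime.coprime_dvd_left h3 q.reduced) hd
  exact hℓ.out.one_lt.ne' h4

/-- a rational number in the local ring with residue `1` -/
theorem rat_one {ℓ : ℕ} [hℓ : Fact ℓ.Prime] (hM : (ℓ : integralClosure ℤ ℂ) ∈ M) {q : ℚ}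
    (h : (q : ℂ) ∈ RM M) (h1 : rr M (q : ℂ) = 1) : ∃ q' ∈ SOR.Rl ℓ, q = 1 + ℓ * q' := by
  have hden : ¬ ℓ ∣ q.den := rat_RM hM h
  have e1 : (q.num : ℂ) = (q : ℂ) * ((q.den : ℤ) : ℂ) := by
    have h1 : (q : ℚ) * q.den = q.num := Rat.mul_den_eq_num q
    have h2 := congrArg (fun r : ℚ => (r : ℂ)) h1
    push_cast at h2 ⊢
    exact h2.symm
  have e3 : rr M (q.num : ℂ) = rr M ((q.den : ℤ) : ℂ) := by
    rw [e1, rr_mul h (rr_int _).1, h1, one_mul]
  have e4 : rr M (((q.num - (q.den : ℤ) : ℤ)) : ℂ) = 0 := by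
    rw [Int.cast_sub, rr_sub (rr_int _).1 (rr_int _).1, e3, sub_self]
  rw [dvd_of_rr hℓ.out hM] at e4
  obtain ⟨k, hk⟩ := e4
  have hd0 : (q.den : ℚ) ≠ 0 := Nat.cast_ne_zero.2 q.den_ne_zero
  refine ⟨(k : ℚ) / q.den, ?_, ?_⟩
  · apply rat_RM hM
    have e5 : (((k : ℚ) / q.den : ℚ) : ℂ) = (k : ℂ) * ((q.den : ℂ))⁻¹ := by
      push_cast
      rw [div_eq_mul_inv]
    rw [e5]
    exact (RM M).mul_mem (rr_int _).1 (inv_nat_RM hℓ.out hM hden)
  · have e6 : (q.num : ℚ) = q.den + ℓ * k := by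
      have : q.num = (q.den : ℤ) + (ℓ : ℤ) * k := by linarith
      rw [this]
      push_cast
      ring
    have e7 : q * q.den = q.num := Rat.mul_den_eq_num q
    have e8 : q = (q.den + ℓ * k) / q.den := by
      rw [← e6, ← e7]
      field_simp
    have e9 : (q.den + ℓ * k) / q.den = 1 + ℓ * ((k : ℚ) / q.den) := by
      field_simp
    rw [← e9, ← e8]

end rat

/-- SYE -/
theorem sye (hLbu : LbuStmt) (hLbg : LbgStmt) : SyeStmt := by
  intro ℓ hℓ M _ hM V₀ G _ _ _ _ E₀ hFr e g i hinj hL hact hsur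
  have hF : GoodF ℓ (FF M) := H50.fld ℓ Fact.out M hM
  obtain ⟨hex, huni, htop, -, -⟩ := hLbu ℓ (FF M) hF V₀ G e g i hinj hL
  choose b hb using hex
  have hbtop : b ⊤ = g := huni ⊤ _ _ (hb ⊤) htop
  let B₀ : Bk (FF M) V₀ G := ⟨e, g, i, b, fun _ => 1, fun _ => 1⟩
  have hS₀ : Sb ℓ M E₀ B₀ := ⟨hinj, hL, hact, hsur, hb⟩
  have hlbg := hLbg ℓ M hM V₀ G E₀ hFr B₀ hS₀
  have hD : ∀ W : Subgroup V₀, ∃ d : ℕ, W ≠ ⊥ → Dg M (fun t : B₀.C W => b W t) d := by
    intro W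
    by_cases hW : W = ⊥
    · exact ⟨0, fun h => absurd hW h⟩
    · obtain ⟨h1, h2⟩ := hlbg W hW
      obtain ⟨⟨d, hd⟩, -⟩ := T3.Asm.nil_ ℓ M hM (B₀.C W) _ _ _ h1 h2
      exact ⟨d, fun _ => hd⟩
  choose D hD using hD
  have htb : (⊤ : Subgroup V₀) ≠ ⊥ := by
    intro h
    have h1 : Nat.card V₀ = 1 := by
      rw [← Subgroup.card_top, h, Subgroup.card_bot]
    rw [hFr.cd] at h1
    have h2 := hℓ.out.one_lt
    have h3 : 1 < ℓ ^ 2 := Nat.one_lt_pow two_ne_zero h2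
    omega
  have hCtop : B₀.C ⊤ = Subgroup.centralizer (i.range : Set G) := by
    show Subgroup.centralizer (((⊤ : Subgroup V₀).map i : Subgroup G) : Set G) = _
    rw [← MonoidHom.range_eq_map]
  have hDtop : Dg M (fun t : Subgroup.centralizer (i.range : Set G) => g t) (D ⊤) := by
    have h1 := hD ⊤ htb
    rw [hbtop] at h1
    have h2 : ∀ C : Subgroup G, B₀.C ⊤ = C → Dg M (fun t : C => g t) (D ⊤) := by
      rintro _ rfl
      exact h1
    exact h2 _ hCtop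
  have hS : ∀ W : Subgroup V₀, ∃ ε : ℤ, W ≠ ⊥ → (ε = 1 ∨ ε = -1) ∧ ∃ q ∈ SOR.Rl ℓ,
      (ε * Nat.card (B₀.C W) * D ⊤ / (Nat.card (B₀.C ⊤) * D W) : ℚ) = 1 + ℓ * q := by
    intro W
    by_cases hW : W = ⊥
    · exact ⟨0, fun h => absurd hW h⟩
    · obtain ⟨h1, h2⟩ := hlbg W hW
      have hWV : (W.map i : Subgroup G) ≤ i.range := by
        rw [MonoidHom.range_eq_map]
        exact Subgroup.map_mono le_top
      have hVX : i.range ≤ B₀.C W := by
        intro v hv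
        show v ∈ Subgroup.centralizer ((W.map i : Subgroup G) : Set G)
        rw [Subgroup.mem_centralizer_iff]
        intro w hw
        exact hL.ab w (hWV hw) v hv
      have hCX : Subgroup.centralizer (i.range : Set G) ≤ B₀.C W :=
        Subgroup.centralizer_le hWV
      have hc := T3.H85.dg_equiv (T3.H85.cequiv hVX hCX).symm hL.gam.blk.1.1 hDtop
      obtain ⟨ε, hε, r1, r2⟩ := T3.Asm.nit_ ℓ M hM (B₀.C W) _ _ _ h1 h2 (D W) (D ⊤)
        (hD W hW) hc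
      have hcard : Nat.card (Subgroup.centralizer
          ((B₀.i.range.subgroupOf (B₀.C W) : Subgroup (B₀.C W)) : Set (B₀.C W))) =
          Nat.card (B₀.C ⊤) := by
        rw [hCtop]
        exact Nat.card_congr (T3.H85.cequiv hVX hCX).toEquiv
      rw [hcard] at r1 r2
      refine ⟨ε, fun _ => ⟨hε, ?_⟩⟩
      have e1 : (((ε * Nat.card (B₀.C W) * D ⊤ / (Nat.card (B₀.C ⊤) * D W) : ℚ)) : ℂ) =
          (ε : ℂ) * ((Nat.card (B₀.C W) * D ⊤ : ℂ) / (Nat.card (B₀.C ⊤) * D W)) := by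
        push_cast
        ring
      have e2 : ((ε : FF M)) * ε = 1 := by
        rcases hε with h | h <;> rw [h] <;> norm_num
      apply rat_one hM
      · rw [e1]
        exact (RM M).mul_mem (rr_int _).1 r1
      · rw [e1, rr_mul (rr_int _).1 r1, r2, (rr_int ε).2, e2]
  choose S hS using hS
  exact ⟨⟨e, g, i, b, D, S⟩, rfl, rfl, rfl, ⟨⟨hinj, hL, hact, hsur, hb⟩, hD,
    fun W hW => (hS W hW).1, fun W hW => (hS W hW).2⟩⟩

end Pool.Agent.PP.SO.H1
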